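import Pool.Agent.W5h10.RL.Haar
import Pool.Agent.W111.LAR.Top

set_option autoImplicit false

/-!
# Linear arboricity of cyclic Haar graphs of even degree, of their layered analogues and covers

`H931R3.LA.la G` is the linear arboricity (the same expression as in the frozen statement S07085).
-/

namespace Pool.Agent.Results.MP_0a041d_co.CyclicHaar

open SimpleGraph H931R3.LA Pool.Agent.W111.LAR Pool.Agent.TH486.LAC

/-- **The linear arboricity conjecture for cyclic Haar graphs of even degree and their layered
analogues.**  The vertices of `X` are the pairs `(i, x)`, `i : ι`, `x : ℤ/n`.  The layers `{i} × ℤ/n`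
are joined along two involutions `α 0`, `α 1` of `ι` (so that `ℤ/n` acts semiregularly on `X` by
automorphisms and the quotient is a union of single edges and cycles of even length): `(i, x)` is
adjacent to `(α t i, x + d)` for `d ∈ D t i`, where all the sets `D t i` have even size and
`|D 0 i| + |D 1 i| = 2 k`.  Then every finite graph `G` with a locally injective homomorphism to `X`
(for instance `X` itself and its finite covers) has linear arboricity at most `k + 1`, with equality
if `G` is regular of degree `2 k`.

If `ι` has two elements, exchanged by `α 0`, and `α 1 = id`, `D 1 = ∅`, then `X` is the cyclic Haar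
graph of the connection set `D 0`. -/
theorem result :
    ∀ (n : ℕ) [NeZero n] (ι : Type) [Finite ι] (α : Fin 2 → ι → ι)
      (D : Fin 2 → ι → Set (ZMod n)) (k : ℕ) (X : SimpleGraph (ι × ZMod n)),
      (∀ t i, α t (α t i) = i) → (∀ t i, α t i = i → D t i = ∅) →
      (∀ t i, D t (α t i) = -(D t i)) → (∀ t i, Even (D t i).ncard) →
      0 < k → (∀ i, (D 0 i).ncard + (D 1 i).ncard = 2 * k) →
      (∀ i x j y, X.Adj (i, x) (j, y) ↔ ∃ t, α t i = j ∧ y - x ∈ D t i) →
      ∀ (W : Type) [Finite W] [Nonempty W] (G : SimpleGraph W) (f : W → ι × ZMod n),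
        (∀ a b, G.Adj a b → X.Adj (f a) (f b)) →
        (∀ a b c, G.Adj a b → G.Adj a c → f b = f c → b = c) →
        la G ≤ k + 1 ∧ ((∀ a, (G.neighborSet a).ncard = 2 * k) → la G = k + 1) := by
  intro n _ ι _ α D k X hα hfix hsym heven hk hsum hX W _ _ G f hom inj
  classical
  have hfin : ∀ t i, (D t i).Finite := fun t i => Set.toFinite _
  let D' : Fin 2 → ι → Finset (ZMod n) := fun t i => (hfin t i).toFinset
  have hD' : ∀ t i x, x ∈ D' t i ↔ x ∈ D t i := fun t i x => Set.Finite.mem_toFinset _
  have hcard : ∀ t i, (D' t i).card = (D t i).ncard := fun t i =>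
    (Set.ncard_eq_toFinset_card _ (hfin t i)).symm
  have hm : ∀ t i, (D' t i).card = 2 * ((D t i).ncard / 2) := by
    intro t i
    rw [hcard, Nat.two_mul_div_two_of_even (heven t i)]
  have hLD := Pool.Agent.W5h10.RL.ld_layers n ι α hα D' (by
      intro t i x
      rw [hD', hD', hsym, Set.mem_neg]) (by
      intro t i h
      ext x
      rw [hD', hfix t i h]
      simp) (fun t i => (D t i).ncard / 2) hm k (by
      intro i
      have h1 := heven 0 i
      have h2 := heven 1 i
      have h3 := hsum i
      obtain ⟨c, hc⟩ := h1
      obtain ⟨d, hd⟩ := h2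
      omega) X (by
      intro i x j y
      rw [hX]
      simp only [hD'])
  have h1 := hLD.lift G f hom inj
  refine ⟨la_le h1, fun hreg => ?_⟩
  have h2 : (2 * k + 2) / 2 = k + 1 := by omega
  have h3 := la_eq_of_cov (by omega) hreg (h2.symm ▸ h1)
  rwa [h2] at h3

end Pool.Agent.Results.MP_0a041d_co.CyclicHaar
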