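import Pool.Agent.W5h10.RL.SpTop

set_option autoImplicit false

/-!
# The linear arboricity conjecture for graphs whose short cycles are few

`H931R3.LA.la G` is the linear arboricity (the same expression as in the frozen statement S07085).
-/

namespace Pool.Agent.Results.MP_0a041d_co.FarShortCycles

open SimpleGraph H931R3.LA

/-- **Linear arboricity and short cycles.**

(1) Let `G` have maximum degree at most `2 k`, and let the reciprocals of the lengths of any pairwise
edge-disjoint cycles through a common vertex sum up to at most `1 / 2`.  Then `la G ≤ k + 1`, with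
equality if `G` is `2 k`-regular.
(2) Let `r` be odd and let `G` be `r`-regular with a perfect matching.  If any two edge-disjoint
cycles of length less than `6 r` have distance at least `6 r`, then `la G = (r + 1) / 2`.
(3) Let `r ≥ 1` and let `G` be `r`-regular.  If every set `S` of at most `6 r ^ 2` vertices spans at
most `|S|` edges, then `la G = ⌈(r + 1) / 2⌉`. -/
theorem result :
    (∀ (V : Type) [Finite V] (G : SimpleGraph V) (k : ℕ), (∀ v, (G.neighborSet v).ncard ≤ 2 * k) →
      (∀ (v : V) (m : ℕ) (c : Fin m → G.Walk v v), (∀ i, (c i).IsCycle) →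
        (∀ i j, i ≠ j → ∀ e ∈ (c i).edges, e ∉ (c j).edges) →
        ∑ i, (1 : ℝ) / (c i).length ≤ 1 / 2) →
      la G ≤ k + 1 ∧
        (Nonempty V → 0 < k → (∀ v, (G.neighborSet v).ncard = 2 * k) → la G = k + 1)) ∧
    (∀ (V : Type) [Finite V] [Nonempty V] (G : SimpleGraph V) (r : ℕ), Odd r →
      (∀ v, (G.neighborSet v).ncard = r) → (∃ M : G.Subgraph, M.IsPerfectMatching) →
      (∀ (v w : V) (c : G.Walk v v) (d : G.Walk w w), c.IsCycle → d.IsCycle →
        c.length < 6 * r → d.length < 6 * r → (∀ e ∈ c.edges, e ∉ d.edges) →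
        ∀ p : G.Walk v w, 6 * r ≤ p.length) →
      la G = (r + 1) / 2) ∧
    (∀ (V : Type) [Finite V] [Nonempty V] (G : SimpleGraph V) (r : ℕ), 0 < r →
      (∀ v, (G.neighborSet v).ncard = r) →
      (∀ S : Set V, S.ncard ≤ 6 * r ^ 2 → {e ∈ G.edgeSet | ∀ v ∈ e, v ∈ S}.ncard ≤ S.ncard) →
      la G = (r + 2) / 2) := by
  refine ⟨?_, ?_, ?_⟩
  · intro V _ G k hdeg hcyc
    have h1 := Pool.Agent.W5h10.RL.even_load G k hdeg hcyc
    refine ⟨la_le h1, fun hV hk hreg => ?_⟩
    have h3 : (2 * k + 2) / 2 = k + 1 := by omega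
    rw [← h3] at h1 ⊢
    exact Pool.Agent.W111.LAR.la_eq_of_cov (by omega) hreg h1
  · intro V _ _ G r ho hreg hM hcyc
    rw [Pool.Agent.W5h10.RL.matching_case G r ho hreg hM hcyc]
    obtain ⟨k, rfl⟩ := ho
    omega
  · intro V _ _ G r hr hreg hs
    exact Pool.Agent.W5h10.RL.all_sparse G r hr hreg hs

end Pool.Agent.Results.MP_0a041d_co.FarShortCycles
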