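import Pool.Agent.W5h10.RL.Reg

set_option autoImplicit false

/-!
# The linear arboricity conjecture for almost all lifts of a regular graph

`H931R3.LA.la G` is the linear arboricity (the same expression as in the frozen statement S07085).
The base is a finite graph given by its edges `e : E` with ends `p e`, `q e`; a random `n`-lift is
given by independent uniform permutations `σ e` of `Fin n`.
-/

namespace Pool.Agent.Results.MP_0a041d_co.RandomLifts

open SimpleGraph H931R3.LA

/-- The lift, a graph on `V × X`, of the finite multigraph with edges `e : E` joining `p e` and `q e`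
along the permutations `σ e` of `X`: the edge `e` lifts to the edges joining `(p e, x)` and
`(q e, σ e x)`, `x : X` (loops are dropped and parallel edges are identified). -/
def Lift {V E X : Type} (p q : E → V) (σ : E → Equiv.Perm X) : SimpleGraph (V × X) where
  Adj a b := a ≠ b ∧ ∃ e, (p e = a.1 ∧ q e = b.1 ∧ σ e a.2 = b.2) ∨
    (p e = b.1 ∧ q e = a.1 ∧ σ e b.2 = a.2)
  symm.symm _ _ h := ⟨h.1.symm, h.2.imp fun _ h => h.symm⟩
  loopless.irrefl _ h := h.1 rfl

/-- **The linear arboricity conjecture for random lifts.**  Let the base be a finite `r`-regular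
multigraph (every loop counts twice in the degree), `r ≥ 1`.

(1) If the base is a simple graph, then all its lifts are `r`-regular, and there is a constant `C`
such that for all `n ≥ 1` at most the fraction `C / n` of its `n`-lifts has a linear arboricity
different from `⌈(r + 1) / 2⌉`.
(2) If `r = 2 k` is even, then for every base, loops and multiple edges being allowed, and all
`n ≥ 1` at most the fraction `k (k - 1) (6 k - 7) ^ 2 |V| / (2 n)` of the `n`-lifts has a linear
arboricity larger than `k + 1 = ⌈(r + 1) / 2⌉`. -/
theorem result :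
    ∀ (V E : Type) [Finite V] [Finite E] [Nonempty V] (p q : E → V) (r : ℕ), 0 < r →
      (∀ v, {e | p e = v}.ncard + {e | q e = v}.ncard = r) →
      ((∀ e, p e ≠ q e) → (∀ e e', s(p e, q e) = s(p e', q e') → e = e') →
        (∀ (n : ℕ) (σ : E → Equiv.Perm (Fin n)) (a : V × Fin n),
          ((Lift p q σ).neighborSet a).ncard = r) ∧
        ∃ C : ℕ, ∀ n : ℕ, 0 < n →
          n * {σ : E → Equiv.Perm (Fin n) | la (Lift p q σ) ≠ (r + 2) / 2}.ncard ≤
            C * n.factorial ^ Nat.card E) ∧
      (∀ k : ℕ, r = 2 * k → ∀ n : ℕ, 0 < n →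
        2 * n * {σ : E → Equiv.Perm (Fin n) | k + 1 < la (Lift p q σ)}.ncard ≤
          k * (k - 1) * (6 * k - 7) ^ 2 * Nat.card V * n.factorial ^ Nat.card E) := by
  intro V E _ _ _ p q r hr hreg
  refine ⟨fun hne hsimp => ⟨fun n σ a => ?_, ?_⟩, ?_⟩
  · exact Pool.Agent.W5h10.RL.lift_reg p q r hreg hne hsimp σ a
  · exact Pool.Agent.W5h10.RL.lifts_all p q r hr hreg hne hsimp
  · intro k hk n hn
    subst hk
    exact Pool.Agent.W5h10.RL.even_perm p q k hreg n hn

end Pool.Agent.Results.MP_0a041d_co.RandomLifts
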