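import Pool.Agent.W5h10.RL.Reg
import Pool.Agent.W5h10.RL.Volt

set_option autoImplicit false

/-!
# The linear arboricity conjecture for almost all regular covers with a given group

`H931R3.LA.la G` is the linear arboricity (the same expression as in the frozen statement S07085).
The base is a finite multigraph given by its edges `e : E` with ends `p e`, `q e`; a random voltage
assignment is a uniform random function `σ : E → Γ`.
-/

namespace Pool.Agent.Results.MP_0a041d_co.VoltageLifts

open SimpleGraph H931R3.LA

/-- The derived graph on `V × Γ` of the voltage assignment `σ : E → Γ` on the multigraph with edges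
`e : E` joining `p e` and `q e`: the edge `e` lifts to the edges joining `(p e, x)` and
`(q e, σ e * x)`, `x : Γ` (loops are dropped and parallel edges are identified). -/
def Derived {V E Γ : Type} [Group Γ] (p q : E → V) (σ : E → Γ) : SimpleGraph (V × Γ) where
  Adj a b := a ≠ b ∧ ∃ e, (p e = a.1 ∧ q e = b.1 ∧ σ e * a.2 = b.2) ∨
    (p e = b.1 ∧ q e = a.1 ∧ σ e * b.2 = a.2)
  symm.symm _ _ h := ⟨h.1.symm, h.2.imp fun _ h => h.symm⟩
  loopless.irrefl _ h := h.1 rfl

/-- **The linear arboricity conjecture for random voltage assignments.**  Let `Γ` be a finite group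
and let the base be a finite `r`-regular multigraph (every loop counts twice in the degree).

(1) If `r = 2 k`, then all but at most the fraction `k (k - 1) |V| ρ ^ 2 / 2` of the voltage assignments
in `Γ` have a derived graph of linear arboricity at most `k + 1`, where `ρ` is the proportion of the
elements of `Γ` of order less than `6 k - 6`.
(2) If `r = 2 k + 1` and the base has a perfect matching `F`, then all but at most the fraction
`k |V| ρ` of the voltage assignments have a derived graph of linear arboricity at most `k + 1`, where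
`ρ` is the proportion of the elements of `Γ` of order less than `12 k - 8`.
(3) If the base is simple and `r ≥ 1`, all derived graphs are `r`-regular, and their linear arboricity
is `⌈(r + 1) / 2⌉` as soon as it is at most this number. -/
theorem result :
    ∀ (V E Γ : Type) [Finite V] [Finite E] [Nonempty V] [Group Γ] [Finite Γ] (p q : E → V),
      (∀ k : ℕ, (∀ v, {e | p e = v}.ncard + {e | q e = v}.ncard = 2 * k) →
        2 * Nat.card Γ ^ 2 * {σ : E → Γ | k + 1 < la (Derived p q σ)}.ncard ≤
          k * (k - 1) * {γ : Γ | orderOf γ < 6 * k - 6}.ncard ^ 2 * Nat.card V *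
            Nat.card Γ ^ Nat.card E) ∧
      (∀ (k : ℕ) (F : Set E), (∀ v, {e | p e = v}.ncard + {e | q e = v}.ncard = 2 * k + 1) →
        (∀ v, {e | e ∈ F ∧ p e = v}.ncard + {e | e ∈ F ∧ q e = v}.ncard = 1) →
        Nat.card Γ * {σ : E → Γ | k + 1 < la (Derived p q σ)}.ncard ≤
          k * {γ : Γ | orderOf γ < 12 * k - 8}.ncard * Nat.card V * Nat.card Γ ^ Nat.card E) ∧
      (∀ r : ℕ, 0 < r → (∀ v, {e | p e = v}.ncard + {e | q e = v}.ncard = r) →
        (∀ e, p e ≠ q e) → (∀ e e', s(p e, q e) = s(p e', q e') → e = e') →
        ∀ σ : E → Γ, (∀ a, ((Derived p q σ).neighborSet a).ncard = r) ∧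
          (la (Derived p q σ) ≤ (r + 2) / 2 → la (Derived p q σ) = (r + 2) / 2)) := by
  intro V E Γ _ _ _ _ _ p q
  refine ⟨fun k hk => ?_, fun k F hk hF => ?_, fun r hr hreg hne hsimp σ => ?_⟩
  · exact Pool.Agent.W5h10.RL.volt_even' p q k hk
  · exact Pool.Agent.W5h10.RL.volt_odd' p q k F hF hk
  · have h1 : ∀ a, ((Derived p q σ).neighborSet a).ncard = r :=
      fun a => Pool.Agent.W5h10.RL.lift_reg (Γ := Γ) (X := Γ) p q r hreg hne hsimp σ a
    refine ⟨h1, fun h2 => le_antisymm h2 ?_⟩
    exact lower hr (cov_la _) h1

end Pool.Agent.Results.MP_0a041d_co.VoltageLifts
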